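import Mathlib

set_option autoImplicit false

/-!
# Affine maps which asymptotically preserve a sequence of reals

For a strictly increasing sequence `x n → ∞` of reals we study the semigroup of all affine maps
`y ↦ l * y + t`, `l > 0`, which send `x n` to within `o(1)` of the set of all `x m`.
-/

open Filter Topology

namespace Pool.Agent.Helper99.Andrica

/-- `l * x n + t` is within `o(1)` of the set of values of `x`. -/
def Aff (x : ℕ → ℝ) (l t : ℝ) : Prop :=
  ∀ ε : ℝ, 0 < ε → ∀ᶠ n in atTop, ∃ m, |x m - (l * x n + t)| < ε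

/-- Eventually all gaps of `x` are at most `g + ε`. -/
def GapLe (x : ℕ → ℝ) (g : ℝ) : Prop :=
  ∀ ε : ℝ, 0 < ε → ∀ᶠ n in atTop, x (n + 1) - x n ≤ g + ε

variable {x : ℕ → ℝ}

theorem aff_zero : Aff x 1 0 := fun ε hε => Eventually.of_forall fun n => ⟨n, by simpa using hε⟩

/-- The semigroup property. -/
theorem Aff.comp (hx : StrictMono x) (hinf : Tendsto x atTop atTop) {l t l' t' : ℝ} (hl : 0 < l)
    (hl' : 0 < l') (h : Aff x l t) (h' : Aff x l' t') : Aff x (l' * l) (l' * t + t') := by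
  intro ε hε
  have h1 := h' (ε / 2) (by positivity)
  obtain ⟨N, hN⟩ := eventually_atTop.mp h1
  have h2 := h (min 1 (ε / (2 * l'))) (by positivity)
  have h3 : ∀ᶠ n in atTop, x N + 1 - t < l * x n := by
    have : Tendsto (fun n => l * x n) atTop atTop := hinf.const_mul_atTop hl
    exact this.eventually_gt_atTop _
  filter_upwards [h2, h3] with n hn hn3
  obtain ⟨m, hm⟩ := hn
  have hm1 : |x m - (l * x n + t)| < 1 := lt_of_lt_of_le hm (min_le_left _ _)
  have hm2 : |x m - (l * x n + t)| < ε / (2 * l') := lt_of_lt_of_le hm (min_le_right _ _)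
  have hmN : N ≤ m := by
    have : x N < x m := by
      rw [abs_lt] at hm1
      linarith [hm1.1]
    exact (hx.lt_iff_lt.mp this).le
  obtain ⟨k, hk⟩ := hN m hmN
  refine ⟨k, ?_⟩
  have e : x k - (l' * l * x n + (l' * t + t'))
      = (x k - (l' * x m + t')) + l' * (x m - (l * x n + t)) := by ring
  rw [e]
  have h4 : |l' * (x m - (l * x n + t))| < ε / 2 := by
    rw [abs_mul, abs_of_pos hl']
    calc l' * |x m - (l * x n + t)| < l' * (ε / (2 * l')) := by gcongr
      _ = ε / 2 := by field_simp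
  calc _ ≤ |x k - (l' * x m + t')| + |l' * (x m - (l * x n + t))| := abs_add_le _ _
    _ < ε / 2 + ε / 2 := by linarith
    _ = ε := by ring

theorem Aff.add (hx : StrictMono x) (hinf : Tendsto x atTop atTop) {s t : ℝ}
    (h : Aff x 1 s) (h' : Aff x 1 t) : Aff x 1 (s + t) := by
  have := Aff.comp hx hinf one_pos one_pos h h'
  simpa using this

theorem Aff.nsmul (hx : StrictMono x) (hinf : Tendsto x atTop atTop) {s : ℝ}
    (h : Aff x 1 s) (k : ℕ) : Aff x 1 (k * s) := by
  induction k with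
  | zero => simpa using aff_zero
  | succ k ih =>
    have := Aff.add hx hinf ih h
    have e : ((k + 1 : ℕ) : ℝ) * s = k * s + s := by push_cast; ring
    rw [e]; exact this

/-- A nonzero translation bounds the gaps. -/
theorem gapLe_of_aff (hx : StrictMono x) {t : ℝ} (ht : t ≠ 0)
    (h : Aff x 1 t) : GapLe x |t| := by
  intro ε hε
  have htp : 0 < |t| := abs_pos.mpr ht
  have h1 := h (min ε |t|) (lt_min hε htp)
  rcases lt_or_gt_of_ne ht with hneg | hpos
  · -- `t < 0`
    have h2 : ∀ᶠ n in atTop, ∃ m, |x m - (1 * x (n + 1) + t)| < min ε |t| :=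
      (tendsto_add_atTop_nat 1).eventually h1
    filter_upwards [h2] with n hn
    obtain ⟨m, hm⟩ := hn
    have ha : |x m - (1 * x (n + 1) + t)| < ε := lt_of_lt_of_le hm (min_le_left _ _)
    have hb : |x m - (1 * x (n + 1) + t)| < |t| := lt_of_lt_of_le hm (min_le_right _ _)
    rw [abs_of_neg hneg] at hb ⊢
    rw [abs_lt] at ha hb
    have : x m < x (n + 1) := by linarith [hb.2]
    have hmn : m ≤ n := Nat.lt_succ_iff.mp (hx.lt_iff_lt.mp this)
    have := hx.monotone hmn
    linarith [ha.1]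
  · filter_upwards [h1] with n hn
    obtain ⟨m, hm⟩ := hn
    have ha : |x m - (1 * x n + t)| < ε := lt_of_lt_of_le hm (min_le_left _ _)
    have hb : |x m - (1 * x n + t)| < |t| := lt_of_lt_of_le hm (min_le_right _ _)
    rw [abs_of_pos hpos] at hb ⊢
    rw [abs_lt] at ha hb
    have : x n < x m := by linarith [hb.1]
    have hmn : n + 1 ≤ m := hx.lt_iff_lt.mp this
    have := hx.monotone hmn
    linarith [ha.2]

/-- The key step: two translations `s < t` bound the gaps by `t - s`. -/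
theorem gapLe_sub (hx : StrictMono x) (hinf : Tendsto x atTop atTop) {s t : ℝ} (hst : s < t)
    (hs : Aff x 1 s) (ht : Aff x 1 t) : GapLe x (t - s) := by
  -- the gaps are bounded
  obtain ⟨D, hDpos, hD⟩ : ∃ D : ℝ, 0 < D ∧ ∀ᶠ n in atTop, x (n + 1) - x n ≤ D := by
    by_cases h0 : s = 0
    · have ht0 : t ≠ 0 := by rintro rfl; exact absurd h0 hst.ne
      exact ⟨|t| + 1, by positivity, gapLe_of_aff hx ht0 ht 1 one_pos⟩
    · exact ⟨|s| + 1, by positivity, gapLe_of_aff hx h0 hs 1 one_pos⟩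
  set g := t - s with hg
  have hgpos : 0 < g := by linarith
  intro ε₀ hε₀
  obtain ⟨N, hN⟩ := exists_nat_gt ((D + 1) / g)
  have hNg : D + 1 < N * g := by rwa [div_lt_iff₀ hgpos] at hN
  set ε := ε₀ / 4 with hε
  have hεpos : 0 < ε := by positivity
  -- the intermediate translations
  have hmid : ∀ j : ℕ, j ≤ N → Aff x 1 (N * s + j * g) := by
    intro j hj
    have h1 := Aff.add hx hinf (Aff.nsmul hx hinf hs (N - j)) (Aff.nsmul hx hinf ht j)
    have e : (((N - j : ℕ) : ℝ) * s + (j : ℝ) * t) = N * s + j * g := by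
      rw [Nat.cast_sub hj, hg]; ring
    rwa [e] at h1
  have hunif : ∀ᶠ n in atTop, ∀ j ∈ Finset.range (N + 1),
      ∃ m, |x m - (1 * x n + (N * s + j * g))| < ε := by
    rw [Filter.eventually_all_finset]
    intro j hj
    exact hmid j (Nat.lt_succ_iff.mp (Finset.mem_range.mp hj)) ε hεpos
  obtain ⟨n₀, hn₀⟩ := eventually_atTop.mp (hunif.and hD)
  have hbig : ∀ᶠ k in atTop, x n₀ + |N * s| + N * g + 1 < x k := hinf.eventually_gt_atTop _
  filter_upwards [hbig] with k hk
  by_contra hcon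
  push Not at hcon
  -- the gap is `(x k, x (k+1))`, longer than `g + 4 ε`
  set Y := x (k + 1) - ε - N * s with hY
  -- last index with `x n < Y`
  have hYbig : x n₀ + N * g < Y - (g + 0) + g := by
    have h1 := neg_abs_le (N * s)
    have h2 : N * s ≤ |N * s| := le_abs_self _
    have h3 : x k < x (k + 1) := hx (Nat.lt_succ_self k)
    have h4 : ε < 1 + (x (k+1) - x k) := by linarith
    rw [hY]; linarith
  have hex : ∃ n, Y ≤ x n := by
    obtain ⟨n, hn⟩ := (hinf.eventually_ge_atTop Y).exists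
    exact ⟨n, hn⟩
  classical
  set n := Nat.find hex with hn
  have hn1 : Y ≤ x n := Nat.find_spec hex
  have hNgpos : 0 ≤ (N : ℝ) * g := by positivity
  have hnpos : n₀ < n := by
    have : x n₀ < x n := by linarith
    exact hx.lt_iff_lt.mp this
  obtain ⟨p, hp⟩ : ∃ p, n = p + 1 := ⟨n - 1, by omega⟩
  have hp1 : x p < Y := by
    have := Nat.find_min hex (m := p) (by omega)
    exact not_le.mp this
  have hp0 : n₀ ≤ p := by omega
  have hgapp : x (p + 1) - x p ≤ D := (hn₀ p hp0).2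
  rw [hp] at hn1
  -- `0 < Y - x p ≤ D`
  have hd1 : 0 < Y - x p := by linarith
  have hd2 : Y - x p ≤ D := by linarith
  -- choose `j` with `x p + j g ∈ [Y - g, Y)`
  set j := ⌈(Y - x p) / g⌉₊ - 1 with hj
  have hc1 : 1 ≤ ⌈(Y - x p) / g⌉₊ := Nat.one_le_iff_ne_zero.mpr (by
    have : 0 < ⌈(Y - x p) / g⌉₊ := Nat.ceil_pos.mpr (by positivity)
    omega)
  have hjr : (j : ℝ) = (⌈(Y - x p) / g⌉₊ : ℝ) - 1 := by
    rw [hj, Nat.cast_sub hc1]; simp
  have hj1 : (j : ℝ) * g < Y - x p := by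
    have := Nat.ceil_lt_add_one (a := (Y - x p) / g) (by positivity)
    have h2 : (j : ℝ) < (Y - x p) / g := by rw [hjr]; linarith
    rwa [lt_div_iff₀ hgpos] at h2
  have hj2 : Y - x p ≤ (j + 1) * g := by
    have := Nat.le_ceil ((Y - x p) / g)
    have h2 : (Y - x p) / g ≤ (j : ℝ) + 1 := by rw [hjr]; linarith
    rwa [div_le_iff₀ hgpos] at h2
  have hjN : j < N + 1 := by
    have : (j : ℝ) * g < N * g := by linarith
    have := lt_of_mul_lt_mul_right this hgpos.le
    have : j < N := by exact_mod_cast this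
    omega
  obtain ⟨m, hm⟩ := (hn₀ p hp0).1 j (Finset.mem_range.mpr hjN)
  rw [abs_lt] at hm
  -- `x p + N s + j g ∈ (x (k+1) - ε - g, x (k+1) - ε)`
  have hm1 : x m < x (k + 1) := by
    have := hm.2
    rw [hY] at hj1
    linarith
  have hm2 : x k < x m := by
    have := hm.1
    rw [hY] at hj2
    have h5 : g + ε₀ < x (k + 1) - x k := hcon
    have h6 : ε₀ = 4 * ε := by rw [hε]; ring
    nlinarith
  have a1 := hx.lt_iff_lt.mp hm1
  have a2 := hx.lt_iff_lt.mp hm2
  omega

/-- The translations. -/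
def Trans (x : ℕ → ℝ) : Set ℝ := {t | Aff x 1 t}

/-- Every element of the additive group generated by the translations is a difference of two
translations. -/
theorem exists_sub_of_mem (hx : StrictMono x) (hinf : Tendsto x atTop atTop) {g : ℝ}
    (hg : g ∈ AddSubgroup.closure (Trans x)) :
    ∃ s t : ℝ, Aff x 1 s ∧ Aff x 1 t ∧ g = t - s := by
  induction hg using AddSubgroup.closure_induction with
  | mem t ht => exact ⟨0, t, aff_zero, ht, by ring⟩
  | zero => exact ⟨0, 0, aff_zero, aff_zero, by ring⟩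
  | add a b _ _ ha hb =>
    obtain ⟨s, t, hs, ht, rfl⟩ := ha
    obtain ⟨s', t', hs', ht', rfl⟩ := hb
    exact ⟨s + s', t + t', hs.add hx hinf hs', ht.add hx hinf ht', by ring⟩
  | neg a _ ha =>
    obtain ⟨s, t, hs, ht, rfl⟩ := ha
    exact ⟨t, s, ht, hs, by ring⟩

theorem gapLe_of_mem (hx : StrictMono x) (hinf : Tendsto x atTop atTop) {g : ℝ} (hg0 : 0 < g)
    (hg : g ∈ AddSubgroup.closure (Trans x)) : GapLe x g := by
  obtain ⟨s, t, hs, ht, rfl⟩ := exists_sub_of_mem hx hinf hg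
  exact gapLe_sub hx hinf (by linarith) hs ht

/-- Arbitrarily small positive elements of the group make the gaps tend to `0`. -/
theorem tendsto_of_small (hx : StrictMono x) (hinf : Tendsto x atTop atTop)
    (h : ∀ ε : ℝ, 0 < ε → ∃ g ∈ AddSubgroup.closure (Trans x), 0 < g ∧ g < ε) :
    Tendsto (fun n => x (n + 1) - x n) atTop (𝓝 0) := by
  rw [Metric.tendsto_atTop]
  intro ε hε
  obtain ⟨g, hg, hg0, hgε⟩ := h (ε / 2) (by positivity)
  obtain ⟨N, hN⟩ := eventually_atTop.mp (gapLe_of_mem hx hinf hg0 hg (ε / 2) (by positivity))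
  refine ⟨N, fun n hn => ?_⟩
  have h1 := hN n hn
  have h2 : x n < x (n + 1) := hx (Nat.lt_succ_self n)
  rw [Real.dist_eq, sub_zero, abs_of_pos (by linarith)]
  linarith

/-- If the gaps tend to `0`, every large real is close to some `x m`. -/
theorem close_of_tendsto (hx : StrictMono x)
    (hinf : Tendsto x atTop atTop)
    (h : Tendsto (fun n => x (n + 1) - x n) atTop (𝓝 0)) (ε : ℝ) (hε : 0 < ε) :
    ∀ᶠ y : ℝ in atTop, ∃ m, |x m - y| < ε := by
  rw [Metric.tendsto_atTop] at h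
  obtain ⟨N, hN⟩ := h ε hε
  filter_upwards [eventually_gt_atTop (x N)] with y hy
  have hex : ∃ n, y ≤ x n := (hinf.eventually_ge_atTop y).exists
  classical
  set n := Nat.find hex with hn
  have hn1 : y ≤ x n := Nat.find_spec hex
  have hNn : N < n := hx.lt_iff_lt.mp (lt_of_lt_of_le hy hn1)
  obtain ⟨p, hp⟩ : ∃ p, n = p + 1 := ⟨n - 1, by omega⟩
  have hp1 : x p < y := not_le.mp (Nat.find_min hex (m := p) (by omega))
  have := hN p (by omega)
  rw [hp] at hn1
  have h2 : x p < x (p + 1) := hx (Nat.lt_succ_self p)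
  rw [Real.dist_eq, sub_zero, abs_of_pos (by linarith)] at this
  exact ⟨p + 1, by rw [abs_lt]; constructor <;> linarith⟩

theorem aff_of_tendsto (hx : StrictMono x) (hinf : Tendsto x atTop atTop)
    (h : Tendsto (fun n => x (n + 1) - x n) atTop (𝓝 0)) {l : ℝ} (hl : 0 < l) (t : ℝ) :
    Aff x l t := by
  intro ε hε
  have h1 : Tendsto (fun n => l * x n + t) atTop atTop :=
    tendsto_atTop_add_const_right _ _ (hinf.const_mul_atTop hl)
  exact h1.eventually (close_of_tendsto hx hinf h ε hε)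

/-- Two translations with irrational ratio. -/
theorem small_of_irrational {s t : ℝ} (hs : Aff x 1 s)
    (ht : Aff x 1 t) (hir : Irrational (s / t)) (ε : ℝ) (hε : 0 < ε) :
    ∃ g ∈ AddSubgroup.closure (Trans x), 0 < g ∧ g < ε := by
  have hd : Dense ((AddSubgroup.closure {s, t} : AddSubgroup ℝ) : Set ℝ) :=
    dense_addSubgroupClosure_pair_iff.mpr hir
  obtain ⟨g, hg, hg'⟩ := hd.exists_mem_open (isOpen_Ioo (a := (0:ℝ)) (b := ε))
    (Set.nonempty_Ioo.mpr hε)
  refine ⟨g, ?_, hg'.1, hg'.2⟩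
  refine AddSubgroup.closure_mono ?_ hg
  intro z hz
  rcases hz with rfl | hz
  · exact hs
  · rw [Set.mem_singleton_iff] at hz
    rw [hz]; exact ht

/-- An expansion, its inverse up to translation, and one nonzero translation. -/
theorem small_of_dilation (hx : StrictMono x) (hinf : Tendsto x atTop atTop) {l a b t : ℝ}
    (hl : 1 < l) (ha : Aff x l a) (hb : Aff x l⁻¹ b) (ht : Aff x 1 t) (ht0 : t ≠ 0) (ε : ℝ)
    (hε : 0 < ε) : ∃ g ∈ AddSubgroup.closure (Trans x), 0 < g ∧ g < ε := by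
  have hl0 : 0 < l := by linarith
  -- the map `s ↦ u + s / l`
  have hphi : ∀ s, Aff x 1 s → Aff x 1 ((l⁻¹ * a + b) + l⁻¹ * s) := by
    intro s hs
    have h1 := Aff.comp hx hinf hl0 one_pos ha hs
    have h2 := Aff.comp hx hinf (by positivity) (inv_pos.mpr hl0) h1 hb
    have e1 : l⁻¹ * (1 * l) = 1 := by field_simp
    rw [e1] at h2
    have e2 : l⁻¹ * (1 * a + s) + b = (l⁻¹ * a + b) + l⁻¹ * s := by ring
    rwa [e2] at h2
  -- the group contains `t / l ^ k`
  have hk : ∀ k : ℕ, ∃ s s', Aff x 1 s ∧ Aff x 1 s' ∧ s - s' = (l⁻¹) ^ k * t := by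
    intro k
    induction k with
    | zero => exact ⟨t, 0, ht, aff_zero, by ring⟩
    | succ k ih =>
      obtain ⟨s, s', hs, hs', e⟩ := ih
      refine ⟨_, _, hphi s hs, hphi s' hs', ?_⟩
      have : (l⁻¹ * a + b + l⁻¹ * s) - (l⁻¹ * a + b + l⁻¹ * s') = l⁻¹ * (s - s') := by ring
      rw [this, e, pow_succ]; ring
  have hlim : Tendsto (fun k : ℕ => (l⁻¹) ^ k * |t|) atTop (𝓝 0) := by
    have := tendsto_pow_atTop_nhds_zero_of_lt_one (r := l⁻¹) (by positivity)
      (inv_lt_one_of_one_lt₀ hl)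
    simpa using this.mul_const |t|
  obtain ⟨k, hkε⟩ := (hlim.eventually_lt_const hε).exists
  obtain ⟨s, s', hs, hs', e⟩ := hk k
  have hmem : (l⁻¹) ^ k * |t| ∈ AddSubgroup.closure (Trans x) := by
    have h1 : s - s' ∈ AddSubgroup.closure (Trans x) :=
      AddSubgroup.sub_mem _ (AddSubgroup.subset_closure hs) (AddSubgroup.subset_closure hs')
    rcases abs_choice t with h | h
    · rw [h, ← e]; exact h1
    · rw [h, mul_neg, ← e]; exact AddSubgroup.neg_mem _ h1
  exact ⟨_, hmem, by positivity, hkε⟩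

theorem small_of_dilation' (hx : StrictMono x) (hinf : Tendsto x atTop atTop) {l a b t : ℝ}
    (hl0 : 0 < l) (hl1 : l ≠ 1) (ha : Aff x l a) (hb : Aff x l⁻¹ b) (ht : Aff x 1 t)
    (ht0 : t ≠ 0) (ε : ℝ)
    (hε : 0 < ε) : ∃ g ∈ AddSubgroup.closure (Trans x), 0 < g ∧ g < ε := by
  rcases lt_or_gt_of_ne hl1 with h | h
  · exact small_of_dilation hx hinf (l := l⁻¹) (one_lt_inv_iff₀.mpr ⟨hl0, h⟩) hb
      (by rw [inv_inv]; exact ha) ht ht0 ε hε
  · exact small_of_dilation hx hinf h ha hb ht ht0 ε hε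

/-- If every large real is close to some `x m`, the gaps tend to `0`. -/
theorem tendsto_of_close (hx : StrictMono x) (hinf : Tendsto x atTop atTop)
    (h : ∀ ε : ℝ, 0 < ε → ∀ᶠ y : ℝ in atTop, ∃ m, |x m - y| < ε) :
    Tendsto (fun n => x (n + 1) - x n) atTop (𝓝 0) := by
  rw [Metric.tendsto_atTop]
  intro ε hε
  obtain ⟨Y, hY⟩ := eventually_atTop.mp (h (ε / 2) (by positivity))
  obtain ⟨N, hN⟩ := eventually_atTop.mp (hinf.eventually_ge_atTop Y)
  refine ⟨N, fun n hn => ?_⟩
  have h2 : x n < x (n + 1) := hx (Nat.lt_succ_self n)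
  obtain ⟨m, hm⟩ := hY ((x n + x (n + 1)) / 2) (by linarith [hN n hn])
  rw [Real.dist_eq, sub_zero, abs_of_pos (by linarith)]
  rw [abs_lt] at hm
  rcases Nat.lt_or_ge n m with h3 | h3
  · have := hx.monotone (Nat.succ_le_of_lt h3)
    have h4 : x (n + 1) ≤ x m := this
    linarith [hm.2]
  · have h4 : x m ≤ x n := hx.monotone h3
    linarith [hm.1]

/-- An irrational translation together with elements near `N + θ` for all large integers `N`. -/
theorem tendsto_of_integers (hx : StrictMono x) (hinf : Tendsto x atTop atTop) {θ t : ℝ}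
    (hθ : ∀ ε : ℝ, 0 < ε → ∀ᶠ N : ℕ in atTop, ∃ m, |x m - (N + θ)| < ε)
    (ht : Aff x 1 t) (hir : Irrational t) :
    Tendsto (fun n => x (n + 1) - x n) atTop (𝓝 0) := by
  apply tendsto_of_close hx hinf
  intro ε hε
  -- a small element of the group generated by `1` and `t`
  have hd : Dense ((AddSubgroup.closure {t, 1} : AddSubgroup ℝ) : Set ℝ) :=
    dense_addSubgroupClosure_pair_iff.mpr (by simpa using hir)
  obtain ⟨g, hg, hg0, hgε⟩ := hd.exists_mem_open (isOpen_Ioo (a := (0:ℝ)) (b := min 1 (ε / 4)))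
    (Set.nonempty_Ioo.mpr (by positivity))
  have hg1 : g < 1 := lt_of_lt_of_le hgε (min_le_left _ _)
  have hgε' : g < ε / 4 := lt_of_lt_of_le hgε (min_le_right _ _)
  obtain ⟨b, a, hab⟩ := AddSubgroup.mem_closure_pair.mp hg
  have hab' : (b : ℝ) * t + a = g := by simpa using hab
  have hb0 : b ≠ 0 := by
    rintro rfl
    have : (a : ℝ) = g := by simpa using hab'
    have h1 : (0 : ℝ) < a := by rw [this]; exact hg0
    have h2 : (a : ℝ) < 1 := by rw [this]; exact hg1
    have h3 : (0 : ℤ) < a := by exact_mod_cast h1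
    have h4 : a < (1 : ℤ) := by exact_mod_cast h2
    omega
  -- `k t = σ g + c`
  obtain ⟨k, σ, c, hσ, hk⟩ : ∃ (k : ℕ) (σ : ℝ) (c : ℤ), (σ = 1 ∨ σ = -1) ∧
      (k : ℝ) * t = σ * g + c := by
    rcases le_or_gt 0 b with h | h
    · refine ⟨b.toNat, 1, -a, Or.inl rfl, ?_⟩
      have : ((b.toNat : ℕ) : ℝ) = (b : ℝ) := by
        have := Int.toNat_of_nonneg h
        exact_mod_cast this
      rw [this, ← hab']; push_cast; ring
    · refine ⟨(-b).toNat, -1, a, Or.inr rfl, ?_⟩
      have : (((-b).toNat : ℕ) : ℝ) = -(b : ℝ) := by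
        have := Int.toNat_of_nonneg (a := -b) (by omega)
        have h2 : (((-b).toNat : ℤ) : ℝ) = ((-b : ℤ) : ℝ) := by rw [this]
        push_cast at h2
        exact_mod_cast h2
      rw [this, ← hab']; ring
  obtain ⟨I, hI⟩ := exists_nat_gt (1 / g)
  have hIg : 1 < I * g := by rwa [div_lt_iff₀ hg0] at hI
  have hunif : ∀ᶠ n in atTop, ∀ i ∈ Finset.range (I + 1),
      ∃ m, |x m - (1 * x n + ((i * k : ℕ) * t))| < ε / 4 := by
    rw [Filter.eventually_all_finset]
    intro i _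
    exact Aff.nsmul hx hinf ht (i * k) (ε / 4) (by positivity)
  obtain ⟨n₀, hn₀⟩ := eventually_atTop.mp hunif
  obtain ⟨N₀, hN₀⟩ := eventually_atTop.mp (hθ (ε / 4) (by positivity))
  filter_upwards [eventually_gt_atTop (θ + I * |(c : ℝ)| + N₀ + 2 + |x n₀| + |θ| + ε)] with y hy
  -- approximate `y - θ` by `N' + σ i g`
  obtain ⟨N', i, hiI, hNi, hN'⟩ : ∃ (N' : ℤ) (i : ℕ), i ≤ I ∧
      |(N' : ℝ) + σ * (i * g) - (y - θ)| ≤ g ∧ y - θ - 1 ≤ N' := by
    rcases hσ with rfl | rfl
    · refine ⟨⌊y - θ⌋, ⌊Int.fract (y - θ) / g⌋₊, ?_, ?_, ?_⟩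
      · have h1 : ((⌊Int.fract (y - θ) / g⌋₊ : ℕ) : ℝ) ≤ Int.fract (y - θ) / g :=
          Nat.floor_le (by have := Int.fract_nonneg (y - θ); positivity)
        have h2 : Int.fract (y - θ) / g < I := by
          rw [div_lt_iff₀ hg0]
          linarith [Int.fract_lt_one (y - θ)]
        exact_mod_cast (h1.trans h2.le)
      · have h1 : ((⌊Int.fract (y - θ) / g⌋₊ : ℕ) : ℝ) ≤ Int.fract (y - θ) / g :=
          Nat.floor_le (by have := Int.fract_nonneg (y - θ); positivity)
        have h2 := Nat.lt_floor_add_one (Int.fract (y - θ) / g)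
        rw [le_div_iff₀ hg0] at h1
        rw [div_lt_iff₀ hg0] at h2
        have h3 := Int.floor_add_fract (y - θ)
        rw [abs_le]
        constructor <;> linarith
      · have := Int.lt_floor_add_one (y - θ)
        linarith
    · have hz : 0 ≤ (⌈y - θ⌉ : ℝ) - (y - θ) := by linarith [Int.le_ceil (y - θ)]
      have hz1 : (⌈y - θ⌉ : ℝ) - (y - θ) < 1 := by linarith [Int.ceil_lt_add_one (y - θ)]
      refine ⟨⌈y - θ⌉, ⌊((⌈y - θ⌉ : ℝ) - (y - θ)) / g⌋₊, ?_, ?_, ?_⟩
      · have h1 : ((⌊((⌈y - θ⌉ : ℝ) - (y - θ)) / g⌋₊ : ℕ) : ℝ) ≤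
            ((⌈y - θ⌉ : ℝ) - (y - θ)) / g := Nat.floor_le (by positivity)
        have h2 : ((⌈y - θ⌉ : ℝ) - (y - θ)) / g < I := by
          rw [div_lt_iff₀ hg0]
          linarith
        exact_mod_cast (h1.trans h2.le)
      · have h1 : ((⌊((⌈y - θ⌉ : ℝ) - (y - θ)) / g⌋₊ : ℕ) : ℝ) ≤
            ((⌈y - θ⌉ : ℝ) - (y - θ)) / g := Nat.floor_le (by positivity)
        have h2 := Nat.lt_floor_add_one (((⌈y - θ⌉ : ℝ) - (y - θ)) / g)
        rw [le_div_iff₀ hg0] at h1
        rw [div_lt_iff₀ hg0] at h2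
        rw [abs_le]
        constructor <;> linarith
      · have := Int.le_ceil (y - θ)
        linarith
  -- the integer `N = N' - i c`
  have hNbig : (N₀ : ℝ) + |x n₀| + |θ| + ε + 1 ≤ ((N' - i * c : ℤ) : ℝ) := by
    push_cast
    have h1 : (i : ℝ) * c ≤ I * |(c : ℝ)| := by
      calc (i : ℝ) * c ≤ i * |(c : ℝ)| := by gcongr; exact le_abs_self _
        _ ≤ I * |(c : ℝ)| := by
          have : (i : ℝ) ≤ I := by exact_mod_cast hiI
          gcongr
    linarith
  have hNpos : 0 ≤ N' - i * c := by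
    have h0 : (0 : ℝ) ≤ ((N' - i * c : ℤ) : ℝ) := by
      refine le_trans ?_ hNbig
      positivity
    exact_mod_cast h0
  obtain ⟨M, hM⟩ := Int.eq_ofNat_of_zero_le hNpos
  have hMr : ((N' - i * c : ℤ) : ℝ) = (M : ℝ) := by rw [hM]; simp
  rw [hMr] at hNbig
  have hMN : N₀ ≤ M := by
    have : (N₀ : ℝ) ≤ M := by
      have h1 := abs_nonneg (x n₀)
      have h2 := abs_nonneg θ
      linarith
    exact_mod_cast this
  obtain ⟨m, hm⟩ := hN₀ M hMN
  have hmn : n₀ ≤ m := by
    have : x n₀ < x m := by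
      rw [abs_lt] at hm
      have h1 := le_abs_self (x n₀)
      have h2 := neg_abs_le θ
      have h3 : (0 : ℝ) ≤ N₀ := by positivity
      linarith [hm.1]
    exact (hx.lt_iff_lt.mp this).le
  obtain ⟨q, hq⟩ := hn₀ m hmn i (Finset.mem_range.mpr (by omega))
  refine ⟨q, ?_⟩
  have hMr' : (M : ℝ) = N' - i * c := by rw [← hMr]; push_cast; ring
  have hikt : ((i * k : ℕ) : ℝ) * t = σ * (i * g) + i * c := by
    push_cast
    rw [mul_assoc, hk]; ring
  have e : x q - y = (x q - (1 * x m + ((i * k : ℕ) * t))) + (x m - (M + θ))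
      + ((N' : ℝ) + σ * (i * g) - (y - θ)) := by
    rw [hikt, hMr']; ring
  rw [e]
  calc _ ≤ |(x q - (1 * x m + ((i * k : ℕ) * t))) + (x m - (M + θ))|
        + |(N' : ℝ) + σ * (i * g) - (y - θ)| := abs_add_le _ _
    _ ≤ (|x q - (1 * x m + ((i * k : ℕ) * t))| + |x m - (M + θ)|)
        + |(N' : ℝ) + σ * (i * g) - (y - θ)| := by gcongr; exact abs_add_le _ _
    _ < ε := by linarith

end Pool.Agent.Helper99.Andrica
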