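import Pool.Agent.Helper99.Andrica.Affine

set_option autoImplicit false

/-!
# Large sets of dilations which asymptotically preserve a sequence
-/

open Filter Topology MeasureTheory
open scoped Pointwise

namespace Pool.Agent.Helper99.Andrica

variable {x : ℕ → ℝ}

/-- The interval lemma: if uniformly for `l` in an interval `l * x n + t` is `ε`-close to the
values of `x`, and `x (n+1) ≤ 2 x n`, then every large real is `ε`-close to the values. -/
theorem close_of_interval (hx : StrictMono x) (hinf : Tendsto x atTop atTop)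
    (hB : ∀ᶠ n in atTop, x (n + 1) ≤ 2 * x n) {l₁ l₂ t ε : ℝ} (hl₁ : 0 < l₁) (hl : l₁ < l₂)
    (h : ∀ᶠ n in atTop, ∀ l, l₁ < l → l < l₂ → ∃ m, |x m - (l * x n + t)| < ε) :
    ∀ᶠ y : ℝ in atTop, ∃ m, |x m - y| < ε := by
  -- shrink the interval
  obtain ⟨a, ha1, hab⟩ := exists_between hl
  obtain ⟨b, hab, hb2⟩ := exists_between hab
  have ha0 : 0 < a := by linarith
  have hb0 : 0 < b := by linarith
  obtain ⟨N₀, hN₀⟩ := eventually_atTop.mp h
  -- the induction
  have key : ∀ j : ℕ, ∀ᶠ n in atTop, ∀ y, a ^ (j + 1) * x n ≤ y → y ≤ b ^ (j + 1) * x n →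
      ∃ m, |x m - y| < ε := by
    intro j
    induction j with
    | zero =>
      have h1 : ∀ᶠ n in atTop, |t| < (a - l₁) * x n ∧ |t| < (l₂ - b) * x n ∧ 0 < x n := by
        refine ((hinf.const_mul_atTop (by linarith)).eventually_gt_atTop _).and
          (((hinf.const_mul_atTop (by linarith)).eventually_gt_atTop _).and
            (hinf.eventually_gt_atTop _))
      filter_upwards [h, h1] with n hn h1n y hy1 hy2
      obtain ⟨h2, h3, h4⟩ := h1n
      have ht1 := neg_abs_le t
      have ht2 := le_abs_self t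
      rw [zero_add, pow_one] at hy1 hy2
      obtain ⟨m, hm⟩ := hn ((y - t) / x n) (by
          rw [lt_div_iff₀ h4]; nlinarith) (by
          rw [div_lt_iff₀ h4]; nlinarith)
      refine ⟨m, ?_⟩
      have e : (y - t) / x n * x n + t = y := by field_simp; ring
      rwa [e] at hm
    | succ j ih =>
      -- thresholds
      have hpa : Tendsto (fun n => a ^ (j + 1) * x n) atTop atTop :=
        hinf.const_mul_atTop (by positivity)
      have hεt : ∃ c : ℝ, ∀ z : ℝ, c < z → N₀ < z ∧ x N₀ + ε < z ∧ 0 < z ∧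
          |t| + (l₁ + a) * |ε| < (a - l₁) * z ∧ |t| + (l₂ + b) * |ε| < (l₂ - b) * z ∧ |ε| < z := by
        refine ⟨|(N₀ : ℝ)| + |x N₀ + ε| + (|t| + (l₁ + a) * |ε|) / (a - l₁)
          + (|t| + (l₂ + b) * |ε|) / (l₂ - b) + |ε|, fun z hz => ?_⟩
        have p1 : 0 < a - l₁ := by linarith
        have p2 : 0 < l₂ - b := by linarith
        have q1 : 0 ≤ (|t| + (l₁ + a) * |ε|) / (a - l₁) := by positivity
        have q2 : 0 ≤ (|t| + (l₂ + b) * |ε|) / (l₂ - b) := by
          have : 0 < l₂ + b := by linarith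
          positivity
        have q3 := abs_nonneg (N₀ : ℝ)
        have q4 := abs_nonneg (x N₀ + ε)
        have q5 := abs_nonneg ε
        refine ⟨?_, ?_, ?_, ?_, ?_, ?_⟩
        · have := le_abs_self (N₀ : ℝ); linarith
        · have := le_abs_self (x N₀ + ε); linarith
        · linarith
        · have : (|t| + (l₁ + a) * |ε|) / (a - l₁) < z := by linarith
          rw [div_lt_iff₀ p1] at this; linarith
        · have : (|t| + (l₂ + b) * |ε|) / (l₂ - b) < z := by linarith
          rw [div_lt_iff₀ p2] at this; linarith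
        · linarith
      obtain ⟨c, hc⟩ := hεt
      filter_upwards [ih, hpa.eventually_gt_atTop c, hinf.eventually_gt_atTop 0]
        with n hn hcn hxn y hy1 hy2
      -- intermediate point
      set z := max (a ^ (j + 1) * x n) (y / b) with hz
      have hz1 : a ^ (j + 1) * x n ≤ z := le_max_left _ _
      have hz2 : z ≤ b ^ (j + 1) * x n := by
        apply max_le
        · gcongr
        · rw [div_le_iff₀ hb0]
          calc y ≤ b ^ (j + 1 + 1) * x n := hy2
            _ = b ^ (j + 1) * x n * b := by ring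
      obtain ⟨m, hm⟩ := hn z hz1 hz2
      obtain ⟨c1, c2, c3, c4, c5, c6⟩ := hc z (lt_of_lt_of_le hcn hz1)
      have hzy1 : a * z ≤ y := by
        rcases max_cases (a ^ (j + 1) * x n) (y / b) with ⟨h, _⟩ | ⟨h, _⟩
        · rw [hz, h]
          calc a * (a ^ (j + 1) * x n) = a ^ (j + 1 + 1) * x n := by ring
            _ ≤ y := hy1
        · rw [hz, h]
          have hy0 : 0 ≤ y := le_trans (by positivity) hy1
          rw [mul_div_assoc', div_le_iff₀ hb0]
          nlinarith
      have hzy2 : y ≤ b * z := by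
        have := le_max_right (a ^ (j + 1) * x n) (y / b)
        rw [← hz, div_le_iff₀ hb0] at this
        linarith
      have hm' := hm
      rw [abs_lt] at hm
      have hεpos : 0 < ε := by
        have := abs_nonneg (x m - z); linarith
      rw [abs_of_pos hεpos] at c4 c5 c6
      have hmN : N₀ ≤ m := by
        have : x N₀ < x m := by linarith [hm.1]
        exact (hx.lt_iff_lt.mp this).le
      have hxm : 0 < x m := by linarith [hm.1]
      have ht1 := neg_abs_le t
      have ht2 := le_abs_self t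
      obtain ⟨q, hq⟩ := hN₀ m hmN ((y - t) / x m) (by
          rw [lt_div_iff₀ hxm]
          have : l₁ * x m ≤ l₁ * (z + ε) := by
            apply mul_le_mul_of_nonneg_left _ hl₁.le
            linarith [hm.2]
          nlinarith) (by
          rw [div_lt_iff₀ hxm]
          have : l₂ * (z - ε) ≤ l₂ * x m := by
            apply mul_le_mul_of_nonneg_left _ (by linarith)
            linarith [hm.1]
          nlinarith)
      refine ⟨q, ?_⟩
      have e : (y - t) / x m * x m + t = y := by field_simp; ring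
      rwa [e] at hq
  -- a large power of `b / a`
  have hba : 1 < b / a := by rw [one_lt_div ha0]; exact hab
  obtain ⟨j, hj⟩ := pow_unbounded_of_one_lt 2 hba
  have hj' : 2 < (b / a) ^ (j + 1) := lt_of_lt_of_le hj (pow_le_pow_right₀ hba.le (Nat.le_succ j))
  have hj2 : 2 * a ^ (j + 1) < b ^ (j + 1) := by
    rw [div_pow, lt_div_iff₀ (by positivity)] at hj'
    linarith
  obtain ⟨N, hN⟩ := eventually_atTop.mp ((key j).and (hB.and (hinf.eventually_gt_atTop 0)))
  filter_upwards [eventually_gt_atTop (a ^ (j + 1) * x N)] with y hy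
  -- the first index with `y < a ^ (j+1) * x n`
  have hex : ∃ n, y < a ^ (j + 1) * x n :=
    ((hinf.const_mul_atTop (by positivity : 0 < a ^ (j + 1))).eventually_gt_atTop y).exists
  classical
  set n := Nat.find hex with hn
  have hn1 : y < a ^ (j + 1) * x n := Nat.find_spec hex
  have hNn : N < n := by
    by_contra hcon
    have : x n ≤ x N := hx.monotone (not_lt.mp hcon)
    have : a ^ (j + 1) * x n ≤ a ^ (j + 1) * x N := by gcongr
    linarith
  obtain ⟨p, hp⟩ : ∃ p, n = p + 1 := ⟨n - 1, by omega⟩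
  have hp1 : a ^ (j + 1) * x p ≤ y := not_lt.mp (Nat.find_min hex (m := p) (by omega))
  obtain ⟨hkey, hBp, hxp⟩ := hN p (by omega)
  refine hkey y hp1 ?_
  rw [hp] at hn1
  have : a ^ (j + 1) * x (p + 1) ≤ a ^ (j + 1) * (2 * x p) := by gcongr
  nlinarith

/-- The distance condition with a closed set of parameters. -/
def Good (x : ℕ → ℝ) (t ε : ℝ) (N : ℕ) : Set ℝ :=
  {l | ∀ n, N ≤ n → Metric.infDist (l * x n + t) (Set.range x) ≤ ε}

theorem isClosed_good (x : ℕ → ℝ) (t ε : ℝ) (N : ℕ) : IsClosed (Good x t ε N) := by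
  have : Good x t ε N
      = ⋂ n, ⋂ (_ : N ≤ n), {l | Metric.infDist (l * x n + t) (Set.range x) ≤ ε} := by
    ext l; simp [Good]
  rw [this]
  refine isClosed_iInter fun n => isClosed_iInter fun _ => ?_
  exact isClosed_le ((Metric.continuous_infDist_pt _).comp (by fun_prop)) continuous_const

theorem exists_good_of_aff {t l ε : ℝ} (hε : 0 < ε) (h : Aff x l t) : ∃ N, l ∈ Good x t ε N := by
  obtain ⟨N, hN⟩ := eventually_atTop.mp (h ε hε)
  refine ⟨N, fun n hn => ?_⟩
  obtain ⟨m, hm⟩ := hN n hn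
  have := Metric.infDist_le_dist_of_mem (x := l * x n + t) (Set.mem_range_self (f := x) m)
  rw [Real.dist_eq, abs_sub_comm] at this
  linarith

theorem exists_of_good {t l ε ε' : ℝ} (hε : ε < ε') {N n : ℕ} (h : l ∈ Good x t ε N)
    (hn : N ≤ n) : ∃ m, |x m - (l * x n + t)| < ε' := by
  have h1 := lt_of_le_of_lt (h n hn) hε
  rw [Metric.infDist_lt_iff (Set.range_nonempty x)] at h1
  obtain ⟨_, ⟨m, rfl⟩, hm⟩ := h1
  rw [Real.dist_eq, abs_sub_comm] at hm
  exact ⟨m, hm⟩

/-- Category version. -/
theorem tendsto_of_not_meagre (hx : StrictMono x) (hinf : Tendsto x atTop atTop)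
    (hB : ∀ᶠ n in atTop, x (n + 1) ≤ 2 * x n) {t : ℝ}
    (h : ¬ IsMeagre {l : ℝ | 0 < l ∧ Aff x l t}) :
    Tendsto (fun n => x (n + 1) - x n) atTop (𝓝 0) := by
  apply tendsto_of_close hx hinf
  intro ε hε
  -- some `Good` set is not meagre within `(0, ∞)`
  have h1 : ∃ N, ¬ IsMeagre (Good x t (ε / 2) N ∩ Set.Ioi 0) := by
    by_contra hcon
    push Not at hcon
    apply h
    refine (isMeagre_iUnion hcon).mono ?_
    rintro l ⟨hl0, hl⟩
    obtain ⟨N, hN⟩ := exists_good_of_aff (ε := ε / 2) (by positivity) hl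
    exact Set.mem_iUnion.mpr ⟨N, hN, hl0⟩
  obtain ⟨N, hN⟩ := h1
  -- so its interior meets `(0, ∞)`
  have h2 : ∃ l ∈ interior (Good x t (ε / 2) N), 0 < l := by
    by_contra hcon
    push Not at hcon
    apply hN
    have hcl := isClosed_good x t (ε / 2) N
    have hnd : IsNowhereDense (frontier (Good x t (ε / 2) N)) := by
      have := interior_frontier hcl
      have hcf : IsClosed (frontier (Good x t (ε / 2) N)) := isClosed_frontier
      exact hcf.isNowhereDense_iff.mpr this
    refine (hnd.isMeagre).mono ?_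
    rintro l ⟨hl, hl0⟩
    refine ⟨subset_closure hl, fun hint => ?_⟩
    exact absurd hl0 (not_lt.mpr (hcon l hint))
  obtain ⟨l, hl, hl0⟩ := h2
  have hop : interior (Good x t (ε / 2) N) ∩ Set.Ioi 0 ∈ 𝓝 l :=
    (isOpen_interior.inter isOpen_Ioi).mem_nhds ⟨hl, hl0⟩
  obtain ⟨a, b, hlab, hab⟩ := mem_nhds_iff_exists_Ioo_subset.mp hop
  -- a positive left end point
  have ha' : max a (l / 2) < b := by
    apply max_lt
    · exact hlab.1.trans hlab.2
    · linarith [hlab.2]
  refine close_of_interval hx hinf hB (l₁ := max a (l / 2)) (l₂ := b) (t := t)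
    (lt_max_of_lt_right (by linarith)) ha' ?_
  filter_upwards [eventually_ge_atTop N] with n hn l' h1 h2
  have hmem := hab ⟨lt_of_le_of_lt (le_max_left _ _) h1, h2⟩
  exact exists_of_good (by linarith) (interior_subset hmem.1) hn

/-- `E + E` contains an interval for a measurable set of positive measure. -/
theorem exists_interval_add (E : Set ℝ) (hE : MeasurableSet E) (hpos : 0 < volume E) :
    ∃ s η : ℝ, 0 < η ∧ ∀ r, |r - s| < η → ∃ u ∈ E, ∃ v ∈ E, r = u + v := by
  -- some reflected copy meets `E` in positive measure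
  have h1 : ∃ s, 0 < volume (E ∩ (fun z => s - z) ⁻¹' E) := by
    by_contra hcon
    push Not at hcon
    have h2 : ∫⁻ s, volume (E ∩ (fun z => s - z) ⁻¹' E) = 0 := by
      simp only [nonpos_iff_eq_zero] at hcon
      simp [hcon]
    have h3 : ∀ s, volume (E ∩ (fun z => s - z) ⁻¹' E)
        = ∫⁻ z, E.indicator 1 z * E.indicator 1 (s - z) := by
      intro s
      have hm : MeasurableSet (E ∩ (fun z => s - z) ⁻¹' E) :=
        hE.inter ((by fun_prop : Measurable fun z : ℝ => s - z) hE)
      rw [← lintegral_indicator_one hm]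
      congr 1
      ext z
      by_cases hz : z ∈ E <;> by_cases hz' : s - z ∈ E <;> simp [hz, hz', Set.indicator]
    simp only [h3] at h2
    have hmeas : Measurable (Function.uncurry fun s z : ℝ =>
        (E.indicator (1 : ℝ → ENNReal) z * E.indicator (1 : ℝ → ENNReal) (s - z))) := by
      have m1 : Measurable (E.indicator (1 : ℝ → ENNReal)) := measurable_one.indicator hE
      exact (m1.comp measurable_snd).mul (m1.comp (measurable_fst.sub measurable_snd))
    rw [lintegral_lintegral_swap hmeas.aemeasurable] at h2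
    have h4 : ∀ z, ∫⁻ s, E.indicator (1 : ℝ → ENNReal) z * E.indicator 1 (s - z)
        = E.indicator (1 : ℝ → ENNReal) z * volume E := by
      intro z
      have m1 : Measurable (E.indicator (1 : ℝ → ENNReal)) := measurable_one.indicator hE
      have m2 : Measurable (fun s : ℝ => E.indicator (1 : ℝ → ENNReal) (s - z)) :=
        m1.comp (measurable_id.sub_const z)
      rw [lintegral_const_mul _ m2]
      congr 1
      rw [lintegral_sub_right_eq_self (fun s => E.indicator (1 : ℝ → ENNReal) s) z,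
        lintegral_indicator_one hE]
    simp only [h4] at h2
    have m1 : Measurable (E.indicator (1 : ℝ → ENNReal)) := measurable_one.indicator hE
    rw [lintegral_mul_const _ m1, lintegral_indicator_one hE] at h2
    have := ENNReal.mul_pos hpos.ne' hpos.ne'
    exact absurd h2 this.ne'
  obtain ⟨s, hs⟩ := h1
  set H := E ∩ (fun z => s - z) ⁻¹' E with hH
  have hHm : MeasurableSet H := hE.inter ((by fun_prop : Measurable fun z : ℝ => s - z) hE)
  have hn := MeasureTheory.Measure.sub_mem_nhds_zero_of_addHaar_pos volume H hHm hs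
  obtain ⟨η, hη, hball⟩ := Metric.mem_nhds_iff.mp hn
  refine ⟨s, η, hη, fun r hr => ?_⟩
  have : r - s ∈ H - H := hball (by rw [Metric.mem_ball, Real.dist_eq, sub_zero]; exact hr)
  obtain ⟨u, hu, v, hv, huv⟩ := Set.mem_sub.mp this
  exact ⟨u, hu.1, s - v, hv.2, by linarith⟩

/-- A non-null set of dilations: a uniform subset of positive measure, in logarithmic scale. -/
theorem exists_piece (h : volume {l : ℝ | 0 < l ∧ Aff x l 0} ≠ 0) :
    ∃ c : ℝ, 0 < c ∧ ∀ ε : ℝ, 0 < ε → ∃ (N : ℕ) (E : Set ℝ), MeasurableSet E ∧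
      0 < volume E ∧ ∀ u ∈ E, Real.exp u ∈ Good x 0 ε N ∧ -c ≤ u ∧ u ≤ c := by
  -- logarithmic scale
  have hG0 : volume {u : ℝ | Aff x (Real.exp u) 0} ≠ 0 := by
    intro h0
    apply h
    have h1 : volume (Real.exp '' {u : ℝ | Aff x (Real.exp u) 0}) = 0 :=
      addHaar_image_eq_zero_of_differentiableOn_of_addHaar_eq_zero volume
        Real.differentiable_exp.differentiableOn h0
    refine measure_mono_null ?_ h1
    rintro l ⟨hl0, hl⟩
    refine ⟨Real.log l, ?_, Real.exp_log hl0⟩
    change Aff x (Real.exp (Real.log l)) 0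
    rw [Real.exp_log hl0]; exact hl
  -- bounded part
  have hb : ∃ c : ℕ, volume ({u : ℝ | Aff x (Real.exp u) 0} ∩ Set.Icc (-(c : ℝ)) c) ≠ 0 := by
    by_contra hcon
    push Not at hcon
    apply hG0
    refine measure_mono_null ?_ (measure_iUnion_null hcon)
    intro u hu
    obtain ⟨c, hc⟩ := exists_nat_ge |u|
    exact Set.mem_iUnion.mpr ⟨c, hu, abs_le.mp hc⟩
  obtain ⟨c, hc⟩ := hb
  refine ⟨c + 1, by positivity, fun ε hε => ?_⟩
  have hN : ∃ N, volume (Real.exp ⁻¹' (Good x 0 ε N) ∩ Set.Icc (-(c : ℝ)) c) ≠ 0 := by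
    by_contra hcon
    push Not at hcon
    apply hc
    refine measure_mono_null ?_ (measure_iUnion_null hcon)
    rintro u ⟨hu, hu'⟩
    obtain ⟨N, hN⟩ := exists_good_of_aff hε hu
    exact Set.mem_iUnion.mpr ⟨N, hN, hu'⟩
  obtain ⟨N, hN⟩ := hN
  refine ⟨N, _, ?_, pos_iff_ne_zero.mpr hN, ?_⟩
  · exact (Real.measurable_exp (isClosed_good x 0 ε N).measurableSet).inter measurableSet_Icc
  · rintro u ⟨hu, hu1, hu2⟩
    exact ⟨hu, by linarith, by linarith⟩

/-- Measure version. -/
theorem tendsto_of_not_null (hx : StrictMono x) (hinf : Tendsto x atTop atTop)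
    (hB : ∀ᶠ n in atTop, x (n + 1) ≤ 2 * x n)
    (h : volume {l : ℝ | 0 < l ∧ Aff x l 0} ≠ 0) :
    Tendsto (fun n => x (n + 1) - x n) atTop (𝓝 0) := by
  obtain ⟨c, hc0, hc⟩ := exists_piece h
  apply tendsto_of_close hx hinf
  intro ε hε
  obtain ⟨ε', hε'pos, h6⟩ : ∃ ε' : ℝ, 0 < ε' ∧ (1 + Real.exp c) * (2 * ε') = ε :=
    ⟨ε / (2 * (1 + Real.exp c)), by positivity, by field_simp⟩
  obtain ⟨N, E, hEm, hEpos, hE⟩ := hc ε' hε'pos
  obtain ⟨s, η, hη, hint⟩ := exists_interval_add E hEm hEpos
  refine close_of_interval hx hinf hB (l₁ := Real.exp (s - η)) (l₂ := Real.exp (s + η)) (t := 0)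
    (Real.exp_pos _) (Real.exp_lt_exp.mpr (by linarith)) ?_
  -- threshold
  have hthr : ∀ᶠ n in atTop, x N + 2 * ε' < Real.exp (-c) * x n :=
    (hinf.const_mul_atTop (Real.exp_pos _)).eventually_gt_atTop _
  filter_upwards [eventually_ge_atTop N, hthr, hinf.eventually_gt_atTop 0]
    with n hn hthr hxn l h1 h2
  have hl0 : 0 < l := (Real.exp_pos _).trans h1
  have hr : |Real.log l - s| < η := by
    rw [abs_lt]
    constructor
    · have := (Real.lt_log_iff_exp_lt hl0).mpr h1; linarith
    · have := (Real.log_lt_iff_lt_exp hl0).mpr h2; linarith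
  obtain ⟨u, hu, v, hv, huv⟩ := hint _ hr
  obtain ⟨hu1, hu2, hu3⟩ := hE u hu
  obtain ⟨hv1, hv2, hv3⟩ := hE v hv
  have hlv : l = Real.exp v * Real.exp u := by
    rw [← Real.exp_add, add_comm, ← huv, Real.exp_log hl0]
  obtain ⟨m, hm⟩ := exists_of_good (ε' := 2 * ε') (by linarith) hu1 hn
  rw [add_zero] at hm
  have hmN : N ≤ m := by
    have h3 : Real.exp (-c) * x n ≤ Real.exp u * x n := by
      have := Real.exp_le_exp.mpr hu2
      gcongr
    have : x N < x m := by
      rw [abs_lt] at hm; linarith [hm.1]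
    exact (hx.lt_iff_lt.mp this).le
  obtain ⟨q, hq⟩ := exists_of_good (ε' := 2 * ε') (by linarith) hv1 hmN
  rw [add_zero] at hq
  refine ⟨q, ?_⟩
  rw [add_zero, hlv]
  have e : x q - Real.exp v * Real.exp u * x n
      = (x q - Real.exp v * x m) + Real.exp v * (x m - Real.exp u * x n) := by ring
  rw [e]
  have hvc : Real.exp v ≤ Real.exp c := Real.exp_le_exp.mpr hv3
  have h5 : |Real.exp v * (x m - Real.exp u * x n)| ≤ Real.exp c * (2 * ε') := by
    rw [abs_mul, abs_of_pos (Real.exp_pos v)]
    gcongr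
  calc _ ≤ |x q - Real.exp v * x m| + |Real.exp v * (x m - Real.exp u * x n)| := abs_add_le _ _
    _ < 2 * ε' + Real.exp c * (2 * ε') := by linarith
    _ = (1 + Real.exp c) * (2 * ε') := by ring
    _ = ε := h6

end Pool.Agent.Helper99.Andrica
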