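import Pool.Agent.Helper99.Andrica.Dilation

set_option autoImplicit false

/-!
# Mills numbers of exponent `2`

If every interval `[y, y + g]`, `y` large, contains the square root of a prime for some `g < 1`,
then close to the square root of every large prime there are numbers `α` such that
`⌊α ^ (2 ^ n)⌋` is prime for all `n ≥ 1`.
-/

open Filter Topology

namespace Pool.Agent.Helper99.Andrica

/-- `α > 1` and `⌊α ^ (2 ^ n)⌋` is prime for every `n ≥ 1`. -/
def IsMills (α : ℝ) : Prop := 1 < α ∧ ∀ n : ℕ, 1 ≤ n → (⌊α ^ (2 ^ n)⌋₊).Prime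

/-- A chain of numbers `q k` with `q k ^ 2 ≤ q (k+1)` and `q (k+1) + 1 < (q k + 1) ^ 2` comes
from one real number. -/
theorem exists_real_of_chain (q : ℕ → ℕ) (hq0 : 1 ≤ q 0) (h1 : ∀ k, q k ^ 2 ≤ q (k + 1))
    (h2 : ∀ k, q (k + 1) + 1 < (q k + 1) ^ 2) :
    ∃ β : ℝ, (q 0 : ℝ) ≤ β ∧ β < q 0 + 1 ∧ ∀ k, ⌊β ^ (2 ^ k)⌋₊ = q k := by
  -- lower and upper approximations
  set u : ℕ → ℝ := fun k => (q k : ℝ) ^ ((2 ^ k : ℝ)⁻¹) with hu
  set v : ℕ → ℝ := fun k => ((q k : ℝ) + 1) ^ ((2 ^ k : ℝ)⁻¹) with hv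
  have hpow : ∀ (k : ℕ) (z : ℝ), 0 ≤ z → (z ^ ((2 ^ k : ℝ)⁻¹)) ^ (2 ^ k) = z := by
    intro k z hz
    rw [← Real.rpow_natCast, ← Real.rpow_mul hz]
    push_cast
    rw [inv_mul_cancel₀ (by positivity), Real.rpow_one]
  have hstep : ∀ (k : ℕ) (z : ℝ), 0 ≤ z →
      z ^ ((2 ^ k : ℝ)⁻¹) = (z ^ 2) ^ ((2 ^ (k + 1) : ℝ)⁻¹) := by
    intro k z hz
    rw [← Real.rpow_two, ← Real.rpow_mul hz]
    congr 1
    rw [pow_succ]
    field_simp
  have humono : Monotone u := by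
    apply monotone_nat_of_le_succ
    intro k
    rw [hu]
    simp only
    rw [hstep k _ (by positivity)]
    apply Real.rpow_le_rpow (by positivity) _ (by positivity)
    exact_mod_cast h1 k
  have hvanti : StrictAnti v := by
    apply strictAnti_nat_of_succ_lt
    intro k
    rw [hv]
    simp only
    rw [hstep k _ (by positivity)]
    apply Real.rpow_lt_rpow (by positivity) _ (by positivity)
    exact_mod_cast h2 k
  have huv : ∀ k, u k ≤ v k := by
    intro k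
    rw [hu, hv]
    simp only
    apply Real.rpow_le_rpow (by positivity) (by linarith) (by positivity)
  have huv' : ∀ k l, u k ≤ v l := by
    intro k l
    calc u k ≤ u (max k l) := humono (le_max_left _ _)
      _ ≤ v (max k l) := huv _
      _ ≤ v l := hvanti.antitone (le_max_right _ _)
  set β := ⨆ k, u k with hβ
  have hbdd : BddAbove (Set.range u) := ⟨v 0, by rintro _ ⟨k, rfl⟩; exact huv' k 0⟩
  have hβu : ∀ k, u k ≤ β := fun k => le_ciSup hbdd k
  have hβv : ∀ k, β < v k := fun k =>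
    lt_of_le_of_lt (ciSup_le fun l => huv' l (k + 1)) (hvanti (Nat.lt_succ_self k))
  have hq1 : ∀ k, 1 ≤ q k := by
    intro k
    induction k with
    | zero => exact hq0
    | succ k ih => exact le_trans (Nat.one_le_pow _ _ ih) (h1 k)
  have hu0 : ∀ k, 0 ≤ u k := fun k => by rw [hu]; positivity
  have hβ0 : 0 ≤ β := (hu0 0).trans (hβu 0)
  refine ⟨β, ?_, ?_, fun k => ?_⟩
  · have := hβu 0
    rw [hu] at this
    simpa using this
  · have := hβv 0
    rw [hv] at this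
    simpa using this
  · rw [Nat.floor_eq_iff (by positivity)]
    constructor
    · calc (q k : ℝ) = (u k) ^ (2 ^ k) := (hpow k _ (by positivity)).symm
        _ ≤ β ^ (2 ^ k) := by
          have := hβu k; have := hu0 k
          gcongr
    · calc β ^ (2 ^ k) < (v k) ^ (2 ^ k) := by
            have := hβv k
            gcongr
        _ = (q k : ℝ) + 1 := hpow k _ (by positivity)

/-- For a chain of primes, the square root of the real number of the chain is a Mills number. -/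
theorem exists_mills_of_chain (q : ℕ → ℕ) (hq : ∀ k, (q k).Prime) (h1 : ∀ k, q k ^ 2 ≤ q (k + 1))
    (h2 : ∀ k, q (k + 1) + 1 < (q k + 1) ^ 2) :
    ∃ α : ℝ, IsMills α ∧ √(q 0 : ℝ) ≤ α ∧ α < √((q 0 : ℝ) + 1) ∧
      ∀ k, ⌊α ^ (2 ^ (k + 1))⌋₊ = q k := by
  obtain ⟨β, hb1, hb2, hb3⟩ := exists_real_of_chain q (hq 0).one_le h1 h2
  have hβ0 : 0 ≤ β := le_trans (by positivity) hb1
  have hpow : ∀ k, (√β) ^ (2 ^ (k + 1)) = β ^ (2 ^ k) := by
    intro k
    rw [pow_succ, mul_comm, pow_mul, Real.sq_sqrt hβ0]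
  refine ⟨√β, ⟨?_, ?_⟩, Real.sqrt_le_sqrt hb1, Real.sqrt_lt_sqrt hβ0 hb2, fun k => ?_⟩
  · rw [Real.lt_sqrt zero_le_one]
    have : (2 : ℝ) ≤ q 0 := by exact_mod_cast (hq 0).two_le
    linarith
  · intro n hn
    obtain ⟨k, rfl⟩ : ∃ k, n = k + 1 := ⟨n - 1, by omega⟩
    rw [hpow, hb3]; exact hq k
  · rw [hpow, hb3]

/-- The square of a Mills number has a prime floor, so a Mills number is close to the square
root of a prime. -/
theorem IsMills.exists_prime {α : ℝ} (h : IsMills α) :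
    ∃ p : ℕ, p.Prime ∧ √(p : ℝ) ≤ α ∧ α < √((p : ℝ) + 1) := by
  refine ⟨⌊α ^ 2⌋₊, by simpa using h.2 1 le_rfl, ?_, ?_⟩
  · rw [Real.sqrt_le_left (by linarith [h.1])]
    exact Nat.floor_le (by positivity)
  · rw [Real.lt_sqrt (by linarith [h.1])]
    exact Nat.lt_floor_add_one _

theorem sqrt_succ_sub {y : ℝ} (hy : 0 < y) : √(y + 1) - √y < 1 / √y := by
  have h1 : 0 < √y := Real.sqrt_pos.mpr hy
  have h2 : √(y + 1) < √y + 1 / √y := by
    rw [Real.sqrt_lt' (by positivity)]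
    have : (√y + 1 / √y) ^ 2 = y + 2 + (1 / √y) ^ 2 := by
      rw [add_sq, Real.sq_sqrt hy.le]
      field_simp
    rw [this]
    have : 0 < (1 / √y) ^ 2 := by positivity
    linarith
  linarith

/-- The primes are `g`-dense in the square root scale. -/
def RootDense (g : ℝ) : Prop := ∀ᶠ y : ℝ in atTop, ∃ p : ℕ, p.Prime ∧ y ≤ √(p : ℝ) ∧
  √(p : ℝ) ≤ y + g

/-- In each window `[Q, Q + 1]` there is a prime which continues a chain. -/
theorem exists_next {g : ℝ} (hg1 : g < 1) (h : RootDense g) :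
    ∃ Q₀ : ℕ, ∀ Q : ℕ, Q₀ ≤ Q → ∃ p : ℕ, p.Prime ∧ Q ^ 2 ≤ p ∧ p + 1 < (Q + 1) ^ 2 := by
  obtain ⟨Y, hY⟩ := eventually_atTop.mp h
  obtain ⟨K, hK⟩ := exists_nat_gt (2 / (1 - g))
  refine ⟨max (⌈Y⌉₊) (max K 1), fun Q hQ => ?_⟩
  have hQY : Y ≤ Q := (Nat.le_ceil Y).trans (by exact_mod_cast (le_max_left _ _).trans hQ)
  have hQK : (K : ℝ) ≤ Q := by
    exact_mod_cast ((le_max_left _ _).trans (le_max_right _ _)).trans hQ
  have hQ1 : (1 : ℝ) ≤ Q := by
    exact_mod_cast ((le_max_right _ _).trans (le_max_right _ _)).trans hQ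
  obtain ⟨p, hp, h1, h2⟩ := hY Q hQY
  refine ⟨p, hp, ?_, ?_⟩
  · have : ((Q : ℝ)) ^ 2 ≤ p := by
      calc ((Q : ℝ)) ^ 2 ≤ (√(p : ℝ)) ^ 2 := by gcongr
        _ = (p : ℝ) := Real.sq_sqrt (by positivity)
    exact_mod_cast this
  · have h3 : (p : ℝ) ≤ (Q + g) ^ 2 := by
      by_cases hneg : 0 ≤ (Q : ℝ) + g
      · rwa [Real.sqrt_le_left hneg] at h2
      · exfalso
        have := Real.sqrt_nonneg (p : ℝ)
        linarith
    have hg0 : 0 ≤ g := by linarith
    have h4 : 2 < (1 - g) * Q := by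
      have h5 : 2 / (1 - g) < Q := lt_of_lt_of_le hK hQK
      rwa [div_lt_iff₀ (by linarith), mul_comm] at h5
    have h5 : (p : ℝ) + 1 < (Q + 1) ^ 2 := by nlinarith
    exact_mod_cast h5

/-- In each window `[Q, Q + 1]` there are two primes which continue a chain, if `g < 1/2`. -/
theorem exists_next_two {g : ℝ} (hg1 : g < 1 / 2) (h : RootDense g) :
    ∃ Q₀ : ℕ, ∀ Q : ℕ, Q₀ ≤ Q → ∃ p : Bool → ℕ, (∀ b, (p b).Prime ∧ Q ^ 2 ≤ p b ∧
      p b + 1 < (Q + 1) ^ 2) ∧ p false < p true := by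
  obtain ⟨Y, hY⟩ := eventually_atTop.mp h
  obtain ⟨K, hK⟩ := exists_nat_gt (8 / (1 - 2 * g))
  refine ⟨max (⌈Y⌉₊) (max K 1), fun Q hQ => ?_⟩
  have hQY : Y ≤ Q := (Nat.le_ceil Y).trans (by exact_mod_cast (le_max_left _ _).trans hQ)
  have hQK : (K : ℝ) ≤ Q := by
    exact_mod_cast ((le_max_left _ _).trans (le_max_right _ _)).trans hQ
  have hQ1 : (1 : ℝ) ≤ Q := by
    exact_mod_cast ((le_max_right _ _).trans (le_max_right _ _)).trans hQ
  obtain ⟨p, hp, h1, h2⟩ := hY Q hQY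
  have hg0 : 0 ≤ g := by linarith
  set δ := (1 - 2 * g) / 4 with hδ
  have hδ0 : 0 < δ := by rw [hδ]; linarith
  obtain ⟨r, hr, h3, h4⟩ := hY (Q + g + δ) (by linarith)
  have hpr : p < r := by
    have : √(p : ℝ) < √(r : ℝ) := by linarith
    have := (Real.sqrt_lt_sqrt_iff (by positivity)).mp this
    exact_mod_cast this
  have hr' : (r : ℝ) ≤ (Q + g + δ + g) ^ 2 := by
    rwa [Real.sqrt_le_left (by positivity)] at h4
  have h5 : 8 < (1 - 2 * g) * Q := by
    have h5 : 8 / (1 - 2 * g) < Q := lt_of_lt_of_le hK hQK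
    rwa [div_lt_iff₀ (by linarith), mul_comm] at h5
  have h6 : (r : ℝ) + 1 < (Q + 1) ^ 2 := by
    have e : (Q : ℝ) + g + δ + g = Q + 1 - 3 * δ := by rw [hδ]; ring
    rw [e] at hr'
    have h7 : 8 < 4 * δ * Q := by rw [hδ]; linarith
    nlinarith
  have h6' : r + 1 < (Q + 1) ^ 2 := by exact_mod_cast h6
  have hQp : Q ^ 2 ≤ p := by
    have : ((Q : ℝ)) ^ 2 ≤ p := by
      calc ((Q : ℝ)) ^ 2 ≤ (√(p : ℝ)) ^ 2 := by gcongr
        _ = (p : ℝ) := Real.sq_sqrt (by positivity)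
    exact_mod_cast this
  refine ⟨fun b => if b then r else p, ?_, by simpa using hpr⟩
  intro b
  cases b
  · simp only [Bool.false_eq_true, if_false]
    exact ⟨hp, hQp, by omega⟩
  · simp only [if_true]
    exact ⟨hr, by omega, h6'⟩

end Pool.Agent.Helper99.Andrica
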