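import Pool.Agent.Helper99.Andrica.Mills

set_option autoImplicit false

/-!
# Density of Mills numbers of exponent `2`
-/

open Filter Topology

namespace Pool.Agent.Helper99.Andrica

/-- Chains of primes with two choices at each step. -/
theorem exists_mills_continuum {g : ℝ} (hg1 : g < 1 / 2) (h : RootDense g) :
    ∃ Q₀ : ℕ, ∀ p : ℕ, p.Prime → Q₀ ≤ p → ∃ f : (ℕ → Bool) → ℝ, Function.Injective f ∧
      ∀ b, IsMills (f b) ∧ √(p : ℝ) ≤ f b ∧ f b < √((p : ℝ) + 1) := by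
  obtain ⟨Q₀, hQ₀⟩ := exists_next_two hg1 h
  choose! nx hnx using hQ₀
  refine ⟨Q₀, fun p hp hpQ => ?_⟩
  set q : (ℕ → Bool) → ℕ → ℕ := fun b k => Nat.rec p (fun i Q => nx Q (b i)) k with hq
  have q0 : ∀ b, q b 0 = p := fun b => rfl
  have qs : ∀ b k, q b (k + 1) = nx (q b k) (b k) := fun b k => rfl
  have hinv : ∀ b k, (q b k).Prime ∧ Q₀ ≤ q b k := by
    intro b k
    induction k with
    | zero => exact ⟨hp, hpQ⟩
    | succ k ih =>
      obtain ⟨h1, h2⟩ := hnx _ ih.2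
      refine ⟨by rw [qs]; exact (h1 (b k)).1, ?_⟩
      rw [qs]
      calc Q₀ ≤ q b k := ih.2
        _ ≤ (q b k) ^ 2 := Nat.le_self_pow two_ne_zero _
        _ ≤ _ := (h1 (b k)).2.1
  have hch : ∀ b, ∃ α : ℝ, IsMills α ∧ √(p : ℝ) ≤ α ∧ α < √((p : ℝ) + 1) ∧
      ∀ k, ⌊α ^ (2 ^ (k + 1))⌋₊ = q b k := by
    intro b
    have := exists_mills_of_chain (q b) (fun k => (hinv b k).1)
      (fun k => by rw [qs]; exact ((hnx _ (hinv b k).2).1 (b k)).2.1)
      (fun k => by rw [qs]; exact ((hnx _ (hinv b k).2).1 (b k)).2.2)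
    rw [q0] at this
    exact this
  choose f hf using hch
  refine ⟨f, ?_, fun b => ⟨(hf b).1, (hf b).2.1, (hf b).2.2.1⟩⟩
  intro b b' hbb
  have hqq : ∀ k, q b k = q b' k := fun k => by
    rw [← (hf b).2.2.2 k, ← (hf b').2.2.2 k, hbb]
  funext k
  have h1 := hqq (k + 1)
  rw [qs, qs, hqq k] at h1
  have h2 := (hnx _ (hinv b' k).2).2
  rcases hb : b k <;> rcases hb' : b' k <;> rw [hb, hb'] at h1 <;>
    first | rfl | (exfalso; omega)

/-- Chains of primes. -/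
theorem exists_mills_near {g : ℝ} (hg1 : g < 1) (h : RootDense g) :
    ∃ Q₀ : ℕ, ∀ p : ℕ, p.Prime → Q₀ ≤ p → ∃ α : ℝ,
      IsMills α ∧ √(p : ℝ) ≤ α ∧ α < √((p : ℝ) + 1) := by
  obtain ⟨Q₀, hQ₀⟩ := exists_next hg1 h
  choose! nx hnx using hQ₀
  refine ⟨Q₀, fun p hp hpQ => ?_⟩
  set q : ℕ → ℕ := fun k => Nat.rec p (fun _ Q => nx Q) k with hq
  have q0 : q 0 = p := rfl
  have qs : ∀ k, q (k + 1) = nx (q k) := fun k => rfl
  have hinv : ∀ k, (q k).Prime ∧ Q₀ ≤ q k := by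
    intro k
    induction k with
    | zero => exact ⟨hp, hpQ⟩
    | succ k ih =>
      obtain ⟨h1, h2, _⟩ := hnx _ ih.2
      refine ⟨by rw [qs]; exact h1, ?_⟩
      rw [qs]
      calc Q₀ ≤ q k := ih.2
        _ ≤ (q k) ^ 2 := Nat.le_self_pow two_ne_zero _
        _ ≤ _ := h2
  obtain ⟨α, h1, h2, h3, _⟩ := exists_mills_of_chain q (fun k => (hinv k).1)
      (fun k => by rw [qs]; exact (hnx _ (hinv k).2).2.1)
      (fun k => by rw [qs]; exact (hnx _ (hinv k).2).2.2)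
  rw [q0] at h2 h3
  exact ⟨α, h1, h2, h3⟩

/-- The Mills numbers are `g`-dense near infinity. -/
def MillsDense (g : ℝ) : Prop := ∀ᶠ y : ℝ in atTop, ∃ α : ℝ, IsMills α ∧ y ≤ α ∧ α ≤ y + g

/-- Every interval of length `g` near infinity contains continuum many Mills numbers. -/
def MillsMany (g : ℝ) : Prop := ∀ᶠ y : ℝ in atTop,
  Cardinal.mk {α : ℝ // IsMills α ∧ y ≤ α ∧ α ≤ y + g} = Cardinal.continuum

theorem eventually_sqrt_succ {η : ℝ} (hη : 0 < η) : ∃ P : ℕ, ∀ p : ℕ, P ≤ p →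
    √((p : ℝ) + 1) < √(p : ℝ) + η := by
  obtain ⟨P, hP⟩ := exists_nat_gt ((1 / η) ^ 2)
  refine ⟨P, fun p hp => ?_⟩
  have hp' : (P : ℝ) ≤ p := by exact_mod_cast hp
  have hp0 : (0 : ℝ) < p := lt_of_le_of_lt (by positivity) (hP.trans_le hp')
  have h1 : 1 / η < √(p : ℝ) := by
    rw [Real.lt_sqrt (by positivity)]
    exact hP.trans_le hp'
  have h2 := sqrt_succ_sub hp0
  have h3 : 1 / √(p : ℝ) < η := by
    rw [div_lt_iff₀ (Real.sqrt_pos.mpr hp0)]
    rw [div_lt_iff₀ hη] at h1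
    linarith
  linarith

theorem large_prime {P : ℕ} {p : ℕ} {y : ℝ} (hy : (P : ℝ) ≤ y) (hP : 2 ≤ P)
    (h : y ≤ √((p : ℝ) + 1)) : P ≤ p := by
  have hP' : (2 : ℝ) ≤ P := by exact_mod_cast hP
  have h1 : (P : ℝ) ^ 2 ≤ (√((p : ℝ) + 1)) ^ 2 := by
    have := hy.trans h
    gcongr
  rw [Real.sq_sqrt (by positivity)] at h1
  have h2 : P ^ 2 ≤ p + 1 := by exact_mod_cast h1
  nlinarith

theorem millsDense_of_rootDense {g η : ℝ} (hg1 : g < 1) (hη : 0 < η) (h : RootDense g) :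
    MillsDense (g + η) := by
  obtain ⟨Q₀, hQ₀⟩ := exists_mills_near hg1 h
  obtain ⟨P, hP⟩ := eventually_sqrt_succ hη
  filter_upwards [h, eventually_ge_atTop (((Q₀ + P + 2 : ℕ)) : ℝ)] with y hy hy2
  obtain ⟨p, hp, h1, h2⟩ := hy
  have hpl : Q₀ + P + 2 ≤ p := large_prime hy2 (by omega)
    (h1.trans (Real.sqrt_le_sqrt (by linarith)))
  obtain ⟨α, ha, ha1, ha2⟩ := hQ₀ p hp (by omega)
  have h3 := hP p (by omega)
  exact ⟨α, ha, by linarith, by linarith⟩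

theorem millsMany_of_rootDense {g η : ℝ} (hg1 : g < 1 / 2) (hη : 0 < η) (h : RootDense g) :
    MillsMany (g + η) := by
  obtain ⟨Q₀, hQ₀⟩ := exists_mills_continuum hg1 h
  obtain ⟨P, hP⟩ := eventually_sqrt_succ hη
  filter_upwards [h, eventually_ge_atTop (((Q₀ + P + 2 : ℕ)) : ℝ)] with y hy hy2
  obtain ⟨p, hp, h1, h2⟩ := hy
  have hpl : Q₀ + P + 2 ≤ p := large_prime hy2 (by omega)
    (h1.trans (Real.sqrt_le_sqrt (by linarith)))
  obtain ⟨f, hf, hf'⟩ := hQ₀ p hp (by omega)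
  have h3 := hP p (by omega)
  apply le_antisymm
  · calc Cardinal.mk {α : ℝ // IsMills α ∧ y ≤ α ∧ α ≤ y + (g + η)} ≤ Cardinal.mk ℝ :=
        Cardinal.mk_subtype_le _
      _ = Cardinal.continuum := Cardinal.mk_real
  · have : Cardinal.mk (ℕ → Bool) = Cardinal.continuum := by simp
    rw [← this]
    refine Cardinal.mk_le_of_injective (f := fun b => ⟨f b, (hf' b).1, ?_, ?_⟩) ?_
    · linarith [(hf' b).2.1]
    · linarith [(hf' b).2.2]
    · intro b b' hb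
      exact hf (by simpa using hb)

theorem rootDense_of_millsDense {g η : ℝ} (hη : 0 < η) (h : MillsDense g) :
    RootDense (g + η) := by
  obtain ⟨P, hP⟩ := eventually_sqrt_succ hη
  obtain ⟨Y, hY⟩ := eventually_atTop.mp h
  filter_upwards [eventually_ge_atTop (((P + 2 : ℕ)) : ℝ), eventually_ge_atTop Y] with y hy1 hy2
  obtain ⟨α, ha, h1, h2⟩ := hY (y + η) (by linarith)
  obtain ⟨p, hp, h3, h4⟩ := ha.exists_prime
  have hpl : P + 2 ≤ p := large_prime hy1 (by omega) (by linarith)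
  have h5 := hP p (by omega)
  exact ⟨p, hp, by linarith, by linarith⟩

theorem millsDense_of_many {g : ℝ} (h : MillsMany g) : MillsDense g := by
  filter_upwards [h] with y hy
  have hne : Cardinal.mk {α : ℝ // IsMills α ∧ y ≤ α ∧ α ≤ y + g} ≠ 0 := by
    rw [hy]; exact Cardinal.continuum_ne_zero
  obtain ⟨α, ha⟩ := Cardinal.mk_ne_zero_iff.mp hne
  exact ⟨α, ha⟩

end Pool.Agent.Helper99.Andrica
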